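import Pool.Agent.helper4.QX.SpecE
import Pool.Agent.helper62.QU.All

set_option autoImplicit false

/-!
# Row qe:FBC (MP_07c750_an): covers, windows of polynomial size
-/

open scoped MatrixGroups ContDiff Topology UpperHalfPlane
open UpperHalfPlane MeasureTheory ProbabilityTheory Filter Set Polynomial
open Pool.Agent.QU Pool.Agent.RP

namespace Pool.Agent.QX

/-- both signs, with the mean value -/
private def FBC_Good (Γ : Subgroup SL(2, ℝ)) (F : Set ℍ) (h : ℍ → ℝ) (ε c : ℝ) (N : ℕ)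
    (σ : Γ →* Equiv.Perm (Fin N)) : Prop :=
  ∀ (μ : ℝ) (φ : ℍ → Fin N → ℂ), 0 ≤ μ → μ ≤ (N : ℝ) ^ c → IsNewEigenfunction σ μ φ →
      |(∫ z in F, h z * ∑ i, ‖φ z i‖ ^ 2) -
        (∫ z in F, h z) / (volume F).toReal * ∫ z in F, ∑ i, ‖φ z i‖ ^ 2| ≤
        ε * ∫ z in F, ∑ i, ‖φ z i‖ ^ 2

/-- invariant continuous functions are integrable over a nice domain -/
private theorem FBC_int {Γ : Subgroup SL(2, ℝ)} {F : Set ℍ} (hΓ : SurfaceGroup Γ) (hF : NiceDom Γ F)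
    {g : ℍ → ℝ} (hg : Inv Γ g) : IntegrableOn g F volume := by
  obtain ⟨m, hm⟩ := (A_BDD Γ F g hΓ hF hg).1
  obtain ⟨-, -, -, hfin, -, -⟩ := A_DOB Γ F hΓ hF
  have : IsFiniteMeasure (volume.restrict F : Measure ℍ) := ⟨by
    rw [Measure.restrict_apply_univ]; exact hfin⟩
  refine Integrable.of_bound hg.1.aestronglyMeasurable m ?_
  exact Filter.Eventually.of_forall fun z => by rw [Real.norm_eq_abs]; exact hm z

private theorem FBC_inv_sq {Γ : Subgroup SL(2, ℝ)} {N : ℕ} {σ : Γ →* Equiv.Perm (Fin N)} {μ : ℝ}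
    {φ : ℍ → Fin N → ℂ} (hφ : IsNewEigenfunction σ μ φ) : Inv Γ (fun z => ∑ i, ‖φ z i‖ ^ 2) := by
  obtain ⟨h1, h2, -, -⟩ := hφ
  have hc : ∀ i, Continuous fun z => φ z i := fun i =>
    (CA1_cont (fun z => φ z i)).1 ((h1 i).of_le (by exact_mod_cast zero_le))
  refine ⟨continuous_finsetSum _ fun i _ => ((hc i).norm).pow 2, fun γ z => ?_⟩
  show ∑ i, ‖φ (γ • z) i‖ ^ 2 = ∑ i, ‖φ z i‖ ^ 2
  rw [← Equiv.sum_comp (σ γ) fun i => ‖φ (γ • z) i‖ ^ 2]
  refine Finset.sum_congr rfl fun i _ => ?_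
  rw [h2 γ z i]

private theorem FBC_inv_mul {Γ : Subgroup SL(2, ℝ)} {f g : ℍ → ℝ} (hf : Inv Γ f) (hg : Inv Γ g) :
    Inv Γ (fun z => f z * g z) :=
  ⟨hf.1.mul hg.1, fun γ z => by simp only [hf.2 γ z, hg.2 γ z]⟩

private theorem FBC_small (t η : ℝ) (ht : 0 < t) (hη : 0 < η) :
    ∃ N₀ : ℕ, ∀ N : ℕ, N₀ ≤ N → (N : ℝ) ^ (-t) ≤ η := by
  have hlim : Tendsto (fun N : ℕ => (N : ℝ) ^ (-t)) atTop (𝓝 0) :=
    (tendsto_rpow_neg_atTop ht).comp tendsto_natCast_atTop_atTop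
  obtain ⟨N3, hN3⟩ := Filter.eventually_atTop.1 (hlim.eventually_lt_const hη)
  exact ⟨N3, fun N hN => (hN3 N hN).le⟩

/-- Step A: the set for a function and both signs -/
private theorem FBC_stepA {Γ : Subgroup SL(2, ℝ)} (hΓ : SurfaceGroup Γ) {F : Set ℍ}
    (hF : NiceDom Γ F) (c t : ℝ) (ht : 0 < t) (θ : ℕ → (Γ →* F2))
    (hP : ∀ (h : ℍ → ℝ), Inv Γ h →
      (∫ z in F, h z) = 0 → ∀ ε : ℝ, 0 < ε → ∃ N₀ : ℕ, ∀ N : ℕ, N₀ ≤ N →
        ∃ B : Finset (Fin 2 → Equiv.Perm (Fin N)),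
        (B.card : ℝ) ≤ (N : ℝ) ^ (-t) * (N.factorial : ℝ) ^ 2 ∧ ∀ σ, σ ∉ B →
          GoodP Γ F h ε c N ((FreeGroup.lift σ).comp (θ N)))
    (h : ℍ → ℝ) (hh : Inv Γ h) (ε η : ℝ) (hε : 0 < ε) (hη : 0 < η) :
    ∃ N₀ : ℕ, ∀ N : ℕ, N₀ ≤ N → ∃ B : Finset (Fin 2 → Equiv.Perm (Fin N)),
        (B.card : ℝ) ≤ η * (N.factorial : ℝ) ^ 2 ∧ ∀ σ, σ ∉ B →
          FBC_Good Γ F h ε c N ((FreeGroup.lift σ).comp (θ N)) := by
  classical
  obtain ⟨-, -, hpos, hfin, -, -⟩ := A_DOB Γ F hΓ hF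
  have : IsFiniteMeasure (volume.restrict F : Measure ℍ) := ⟨by
    rw [Measure.restrict_apply_univ]; exact hfin⟩
  have hv : 0 < (volume F).toReal := ENNReal.toReal_pos hpos.ne' hfin.ne
  set m : ℝ := (∫ z in F, h z) / (volume F).toReal with hm
  have hi := FBC_int hΓ hF hh
  have hconst : (∫ _z in F, m) = ∫ z in F, h z := by
    rw [integral_const, smul_eq_mul, measureReal_restrict_apply_univ, measureReal_def, hm]
    field_simp
  have hmi : IntegrableOn (fun _ : ℍ => m) F volume := integrable_const m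
  have i1 : Inv Γ (fun z => h z - m) := ⟨hh.1.sub continuous_const, fun γ z => by
    simp only [hh.2 γ z]⟩
  have i2 : Inv Γ (fun z => m - h z) := ⟨continuous_const.sub hh.1, fun γ z => by
    simp only [hh.2 γ z]⟩
  have z1 : (∫ z in F, (h z - m)) = 0 := by
    rw [integral_sub hi hmi, hconst, sub_self]
  have z2 : (∫ z in F, (m - h z)) = 0 := by
    rw [integral_sub hmi hi, hconst, sub_self]
  obtain ⟨N1, hN1⟩ := hP _ i1 z1 ε hε
  obtain ⟨N2, hN2⟩ := hP _ i2 z2 ε hε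
  obtain ⟨N3, hN3⟩ := FBC_small t (η / 2) ht (half_pos hη)
  refine ⟨max N1 (max N2 N3), fun N hN => ?_⟩
  have g1 : N1 ≤ N := (le_max_left _ _).trans hN
  have g2 : N2 ≤ N := ((le_max_left _ _).trans (le_max_right _ _)).trans hN
  have g3 : N3 ≤ N := ((le_max_right _ _).trans (le_max_right _ _)).trans hN
  obtain ⟨B1, hB1, hG1⟩ := hN1 N g1
  obtain ⟨B2, hB2, hG2⟩ := hN2 N g2
  have hsm := hN3 N g3
  have hf0 : 0 ≤ (N.factorial : ℝ) ^ 2 := by positivity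
  refine ⟨B1 ∪ B2, ?_, ?_⟩
  · have e1 : ((B1 ∪ B2).card : ℝ) ≤ (B1.card : ℝ) + B2.card := by
      exact_mod_cast Finset.card_union_le B1 B2
    have e2 := mul_le_mul_of_nonneg_right hsm hf0
    linarith
  · intro σ hσ μ φ hμ0 hμ hφ
    have hx1 : σ ∉ B1 := fun hc => hσ (Finset.mem_union_left _ hc)
    have hx2 : σ ∉ B2 := fun hc => hσ (Finset.mem_union_right _ hc)
    have k1 := hG1 σ hx1 μ φ hμ0 hμ hφ
    have k2 := hG2 σ hx2 μ φ hμ0 hμ hφ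
    have isq := FBC_inv_sq hφ
    have j1 := FBC_int hΓ hF isq
    have j2 := FBC_int hΓ hF (FBC_inv_mul hh isq)
    have j3 : IntegrableOn (fun z => m * ∑ i, ‖φ z i‖ ^ 2) F volume := j1.const_mul m
    have e1 : (∫ z in F, (h z - m) * ∑ i, ‖φ z i‖ ^ 2) =
        (∫ z in F, h z * ∑ i, ‖φ z i‖ ^ 2) - m * ∫ z in F, ∑ i, ‖φ z i‖ ^ 2 := by
      rw [← integral_const_mul, ← integral_sub j2 j3]
      refine integral_congr_ae (Filter.Eventually.of_forall fun z => ?_)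
      simp only
      ring
    have e2 : (∫ z in F, (m - h z) * ∑ i, ‖φ z i‖ ^ 2) =
        -((∫ z in F, h z * ∑ i, ‖φ z i‖ ^ 2) - m * ∫ z in F, ∑ i, ‖φ z i‖ ^ 2) := by
      rw [← e1, ← integral_neg]
      refine integral_congr_ae (Filter.Eventually.of_forall fun z => ?_)
      simp only
      ring
    rw [e1] at k1
    rw [e2] at k2
    rw [abs_le]
    constructor
    · linarith
    · exact k1

/-- Step B: transitivity -/
private theorem FBC_stepB {Γ : Subgroup SL(2, ℝ)} (t : ℝ) (ht : 0 < t) (θ : ℕ → (Γ →* F2))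
    (hP : ∀ (a : MonoidAlgebra ℂ Γ) (ε : ℝ), adj a = a → 0 < ε → ∃ N₀ : ℕ, ∀ N : ℕ, N₀ ≤ N →
      ∃ B : Finset (Fin 2 → Equiv.Perm (Fin N)),
        (B.card : ℝ) ≤ (N : ℝ) ^ (-t) * (N.factorial : ℝ) ^ 2 ∧
        ∀ σ, σ ∉ B → ∀ v : EuclideanSpace ℂ (Fin N), ∑ i, v i = 0 →
        ‖rep (permRep ((FreeGroup.lift σ).comp (θ N))) a v‖ ≤ (regNorm a + ε) * ‖v‖)
    (s : F2 →* Γ) (hs : Function.Injective s) :
    ∃ N₀ : ℕ, ∀ N : ℕ, N₀ ≤ N → ∃ B : Finset (Fin 2 → Equiv.Perm (Fin N)),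
        (B.card : ℝ) ≤ 1 / 4 * (N.factorial : ℝ) ^ 2 ∧ ∀ σ, σ ∉ B →
          ∀ i j, ∃ γ, ((FreeGroup.lift σ).comp (θ N)) γ i = j := by
  obtain ⟨a, ε, hε, hT⟩ := A_TRA Γ s hs
  have hadj := A_ADJ Γ (adj a) a
  have hadj' := A_ADJ Γ a a
  have hsa : adj (adj a * a) = adj a * a := by
    rw [hadj.2.2.1, hadj'.2.1]
  obtain ⟨N1, hN1⟩ := hP (adj a * a) (ε ^ 2) hsa (by positivity)
  obtain ⟨N2, hN2⟩ := FBC_small t (1 / 4) ht (by norm_num)
  have hR := A_RNB Γ (adj a) a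
  have hR0 := A_RNB Γ a a
  refine ⟨max N1 N2, fun N hN => ?_⟩
  obtain ⟨B, hB, hG⟩ := hN1 N ((le_max_left _ _).trans hN)
  have hsm := hN2 N ((le_max_right _ _).trans hN)
  have hf0 : 0 ≤ (N.factorial : ℝ) ^ 2 := by positivity
  refine ⟨B, hB.trans (mul_le_mul_of_nonneg_right hsm hf0), fun σ hσ => ?_⟩
  refine hT N _ fun v hv => ?_
  have k1 := hG σ hσ v hv
  have k2 := (A_REP Γ (EuclideanSpace ℂ (Fin N)) (permRep ((FreeGroup.lift σ).comp (θ N))) a a v v).2.2.2.2.2.2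
  have hr0 : 0 ≤ regNorm a := hR0.1
  have hr1 : regNorm (adj a * a) ≤ regNorm a ^ 2 := by
    have e1 := hR.2.2.2.2.2.2.1
    rw [hadj'.2.2.2.1] at e1
    rw [pow_two]
    exact e1
  have hv0 : 0 ≤ ‖v‖ := norm_nonneg v
  have k3 : ‖rep (permRep ((FreeGroup.lift σ).comp (θ N))) a v‖ ^ 2 ≤ ((regNorm a + ε) * ‖v‖) ^ 2 := by
    refine k2.trans ?_
    refine (mul_le_mul_of_nonneg_right k1 hv0).trans ?_
    have e1 : regNorm (adj a * a) + ε ^ 2 ≤ (regNorm a + ε) ^ 2 := by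
      nlinarith [mul_nonneg hr0 hε.le]
    have e2 : (regNorm (adj a * a) + ε ^ 2) * ‖v‖ * ‖v‖ = (regNorm (adj a * a) + ε ^ 2) * ‖v‖ ^ 2 := by ring
    rw [e2, mul_pow]
    exact mul_le_mul_of_nonneg_right e1 (by positivity)
  exact (pow_le_pow_iff_left₀ (norm_nonneg _) (by positivity) (by norm_num)).1 k3

theorem FBC (h1 : PRT_stmt) (h2 : SEP_stmt) : FBC_stmt := by
  classical
  obtain ⟨c, t, hc, ht, hP0⟩ := h1
  refine ⟨c, hc, fun Γ hΓ g hg hne => ?_⟩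
  obtain ⟨e⟩ := hne
  obtain ⟨θ, hP1, hP2⟩ := hP0 Γ g e hg hΓ
  obtain ⟨F, hF⟩ := A_DOM Γ hΓ
  obtain ⟨H, hHinv, hHd⟩ := h2 Γ hΓ
  obtain ⟨⟨s, hs⟩, hsg⟩ := A_SGF g hg
  have hA : ∀ n : ℕ, ∃ N₀ : ℕ, ∀ N : ℕ, N₀ ≤ N → ∃ B : Finset (Fin 2 → Equiv.Perm (Fin N)),
      (B.card : ℝ) ≤ ((1 / 2 : ℝ) ^ (n + 2)) * (N.factorial : ℝ) ^ 2 ∧ ∀ σ, σ ∉ B →
        FBC_Good Γ F (H n.unpair.1) (1 / ((n.unpair.2 : ℝ) + 1)) c N
          ((FreeGroup.lift σ).comp (θ N)) := by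
    intro n
    exact FBC_stepA hΓ hF c t ht θ (fun h hh hz ε hε => hP1 F h hF hh hz ε hε) _ (hHinv _)
      _ _ (by positivity) (by positivity)
  choose N₀ hN₀ using hA
  obtain ⟨NT, hNT⟩ := FBC_stepB t ht θ hP2 (e.symm.toMonoidHom.comp s)
    (by
      intro x y hxy
      exact hs (e.symm.injective hxy))
  have hB : ∀ N : ℕ, NT ≤ N → ∃ x : Fin 2 → Equiv.Perm (Fin N),
      (∀ i j, ∃ γ, ((FreeGroup.lift x).comp (θ N)) γ i = j) ∧ ∀ n : ℕ, N₀ n ≤ N →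
      FBC_Good Γ F (H n.unpair.1) (1 / ((n.unpair.2 : ℝ) + 1)) c N
        ((FreeGroup.lift x).comp (θ N)) := by
    intro N hNN
    obtain ⟨BT, hBT, hBT2⟩ := hNT N hNN
    have hB1 : ∀ n : ℕ, ∃ B : Finset (Fin 2 → Equiv.Perm (Fin N)),
        (B.card : ℝ) ≤ ((1 / 2 : ℝ) ^ (n + 2)) * (N.factorial : ℝ) ^ 2 ∧ ∀ σ, σ ∉ B →
          N₀ n ≤ N → FBC_Good Γ F (H n.unpair.1) (1 / ((n.unpair.2 : ℝ) + 1)) c N
            ((FreeGroup.lift σ).comp (θ N)) := by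
      intro n
      by_cases hn : N₀ n ≤ N
      · obtain ⟨B, b1, b2⟩ := hN₀ n N hn
        exact ⟨B, b1, fun x hx _ => b2 x hx⟩
      · exact ⟨∅, by simp, fun x _ h' => absurd h' hn⟩
    choose B b1 b2 using hB1
    by_contra hcon
    push Not at hcon
    have hf0 : 0 < (N.factorial : ℝ) ^ 2 := by positivity
    -- every element is in a bad set
    have hbad : ∀ x : Fin 2 → Equiv.Perm (Fin N), x ∈ BT ∨ ∃ n, x ∈ B n := by
      intro x
      by_cases hx : x ∈ BT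
      · exact Or.inl hx
      · right
        obtain ⟨n, hn1, hn2⟩ := hcon x (hBT2 x hx)
        refine ⟨n, ?_⟩
        by_contra hxn
        exact hn2 (b2 n x hxn hn1)
    have hbad2 : ∀ x : Fin 2 → Equiv.Perm (Fin N), ∃ n, x ∈ BT ∨ x ∈ B n := by
      intro x
      rcases hbad x with hx | ⟨n, hn⟩
      · exact ⟨0, Or.inl hx⟩
      · exact ⟨n, Or.inr hn⟩
    choose ν hν using hbad2
    have hcov : (Finset.univ : Finset (Fin 2 → Equiv.Perm (Fin N))) ⊆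
        BT ∪ (Finset.univ.image ν).biUnion B := by
      intro x _
      rw [Finset.mem_union, Finset.mem_biUnion]
      rcases hν x with hx | hx
      · exact Or.inl hx
      · exact Or.inr ⟨ν x, Finset.mem_image_of_mem _ (Finset.mem_univ x), hx⟩
    have hcard := Finset.card_le_card hcov
    have hcu : (Finset.univ : Finset (Fin 2 → Equiv.Perm (Fin N))).card = N.factorial ^ 2 := by
      rw [Finset.card_univ, Fintype.card_fun, Fintype.card_perm, Fintype.card_fin, Fintype.card_fin]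
    rw [hcu] at hcard
    have hcard2 : N.factorial ^ 2 ≤ BT.card + ∑ n ∈ Finset.univ.image ν, (B n).card :=
      hcard.trans ((Finset.card_union_le _ _).trans
        (Nat.add_le_add_left Finset.card_biUnion_le _))
    have hcard3 : (N.factorial : ℝ) ^ 2 ≤ BT.card + ∑ n ∈ Finset.univ.image ν, ((B n).card : ℝ) := by
      exact_mod_cast hcard2
    have hsum : HasSum (fun n : ℕ => (1 / 2 : ℝ) ^ (n + 2)) (1 / 2) := by
      have := (hasSum_geometric_of_lt_one (r := (1 / 2 : ℝ)) (by norm_num) (by norm_num)).mul_left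
        ((1 / 2 : ℝ) ^ 2)
      have e1 : (1 / 2 : ℝ) ^ 2 * (1 - 1 / 2)⁻¹ = 1 / 2 := by norm_num
      rw [e1] at this
      refine this.congr_fun ?_
      intro n
      rw [pow_add]
      ring
    have e2 : ∑ n ∈ Finset.univ.image ν, ((B n).card : ℝ) ≤
        1 / 2 * (N.factorial : ℝ) ^ 2 := by
      calc ∑ n ∈ Finset.univ.image ν, ((B n).card : ℝ)
          ≤ ∑ n ∈ Finset.univ.image ν, (1 / 2 : ℝ) ^ (n + 2) * (N.factorial : ℝ) ^ 2 :=
            Finset.sum_le_sum fun n _ => b1 n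
        _ = (∑ n ∈ Finset.univ.image ν, (1 / 2 : ℝ) ^ (n + 2)) * (N.factorial : ℝ) ^ 2 := by
            rw [Finset.sum_mul]
        _ ≤ _ := by
            refine mul_le_mul_of_nonneg_right ?_ hf0.le
            exact sum_le_hasSum _ (fun n _ => by positivity) hsum
    linarith
  have hB' : ∀ N : ℕ, ∃ τ : Γ →* Equiv.Perm (Fin N),
      (∀ i j, ∃ γ, τ γ i = j) ∧ ∀ n : ℕ, N₀ n ≤ N → NT ≤ N →
      FBC_Good Γ F (H n.unpair.1) (1 / ((n.unpair.2 : ℝ) + 1)) c N τ := by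
    intro N
    by_cases hN : NT ≤ N
    · obtain ⟨x, hx1, hx2⟩ := hB N hN
      exact ⟨_, hx1, fun n hn _ => hx2 n hn⟩
    · obtain ⟨τ, hτ⟩ := hsg N
      refine ⟨τ.comp e.toMonoidHom, fun i j => ?_, fun n _ hN' => absurd hN' hN⟩
      obtain ⟨γ, hγ⟩ := hτ i j
      refine ⟨e.symm γ, ?_⟩
      show τ (e (e.symm γ)) i = j
      rw [e.apply_symm_apply]
      exact hγ
  choose τ hτ1 hτ2 using hB'
  refine ⟨τ, hτ1, fun h hh ε hε => ?_⟩
  have hh' : Inv Γ h := hh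
  obtain ⟨i, hi⟩ := hHd h hh' (ε / 4) (by positivity)
  obtain ⟨l, hl⟩ := exists_nat_one_div_lt (show (0 : ℝ) < ε / 4 by positivity)
  have hx' : ∀ N, N₀ (Nat.pair i l) ≤ N → NT ≤ N →
      FBC_Good Γ F (H i) (1 / ((l : ℝ) + 1)) c N (τ N) := by
    intro N hN hN'
    have := hτ2 N (Nat.pair i l) hN hN'
    rw [Nat.unpair_pair] at this
    exact this
  refine Filter.eventually_atTop.2 ⟨max (N₀ (Nat.pair i l)) NT, fun N hN μ φ hμ0 hμ hφ => ?_⟩
  have key := hx' N ((le_max_left _ _).trans hN) ((le_max_right _ _).trans hN) μ φ hμ0 hμ hφ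
  obtain ⟨-, -, hpos, hfin, hdom, -⟩ := A_DOB Γ F hΓ hF
  have : IsFiniteMeasure (volume.restrict F : Measure ℍ) := ⟨by
    rw [Measure.restrict_apply_univ]; exact hfin⟩
  have hv : 0 < (volume F).toReal := ENNReal.toReal_pos hpos.ne' hfin.ne
  have isq := FBC_inv_sq hφ
  have j0 := FBC_int hΓ hF hh'
  have j0' := FBC_int hΓ hF (hHinv i)
  have j1 := FBC_int hΓ hF isq
  have j2 := FBC_int hΓ hF (FBC_inv_mul hh' isq)
  have j3 := FBC_int hΓ hF (FBC_inv_mul (hHinv i) isq)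
  intro F' hF'
  obtain ⟨hvF, hint⟩ := hdom F' hF'
  rw [hint (fun z => h z * ∑ i, ‖φ z i‖ ^ 2) (FBC_inv_mul hh' isq).2,
    hint (fun z => ∑ i, ‖φ z i‖ ^ 2) isq.2, hint h hh'.2, hvF]
  set I : ℝ := ∫ z in F, ∑ i, ‖φ z i‖ ^ 2 with hI
  have hI0 : 0 ≤ I := integral_nonneg fun z => by positivity
  -- the two differences
  have d1 : |(∫ z in F, h z * ∑ i, ‖φ z i‖ ^ 2) - ∫ z in F, H i z * ∑ i, ‖φ z i‖ ^ 2| ≤ ε / 4 * I := by
    rw [← integral_sub j2 j3]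
    refine (abs_integral_le_integral_abs).trans ?_
    rw [hI, ← integral_const_mul]
    refine integral_mono ((j2.sub j3).abs) (j1.const_mul _) fun z => ?_
    show |h z * (∑ i, ‖φ z i‖ ^ 2) - H i z * ∑ i, ‖φ z i‖ ^ 2| ≤ ε / 4 * ∑ i, ‖φ z i‖ ^ 2
    rw [← sub_mul, abs_mul, abs_of_nonneg (show (0 : ℝ) ≤ ∑ i, ‖φ z i‖ ^ 2 by positivity)]
    exact mul_le_mul_of_nonneg_right (hi z) (by positivity)
  have d2 : |(∫ z in F, h z) / (volume F).toReal - (∫ z in F, H i z) / (volume F).toReal| ≤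
      ε / 4 := by
    rw [← sub_div, abs_div, abs_of_pos hv, div_le_iff₀ hv, ← integral_sub j0 j0']
    refine (abs_integral_le_integral_abs).trans ?_
    have : (∫ _z in F, ε / 4) = ε / 4 * (volume F).toReal := by
      rw [integral_const, smul_eq_mul, measureReal_restrict_apply_univ, measureReal_def, mul_comm]
    rw [← this]
    exact integral_mono ((j0.sub j0').abs) (integrable_const _) fun z => hi z
  have d3 : |((∫ z in F, h z) / (volume F).toReal - (∫ z in F, H i z) / (volume F).toReal) * I| ≤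
      ε / 4 * I := by
    rw [abs_mul, abs_of_nonneg hI0]
    exact mul_le_mul_of_nonneg_right d2 hI0
  have d4 : 1 / ((l : ℝ) + 1) * I ≤ ε / 4 * I := mul_le_mul_of_nonneg_right hl.le hI0
  have d5 := key.trans d4
  rw [sub_mul] at d3
  rw [abs_le] at d1 d3 d5 ⊢
  constructor <;> nlinarith [d1.1, d1.2, d3.1, d3.2, d5.1, d5.2, mul_nonneg hε.le hI0]

end Pool.Agent.QX
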